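import Pool.Agent.Q70.FsC

/-!
# A fixed-point free flow and two points which are separated only by factors of infinite entropy

The flow is the suspension `Q70.Fs.flow` (in `Pool.Agent.Q70.FsB`) of the shift on `[0, 1]^ℤ`.
-/

set_option autoImplicit false

universe u

namespace Pool.Agent.Results.MP_54b048_an.InfiniteEntropyFactors

open Set TopologicalSpace Dynamics Q70.Fs

/-- There are a fixed-point free flow on a compact metrizable space and two distinct points such
that every factor of the flow separating the two points has infinite topological entropy. -/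
theorem result :
    ∃ (X : Type) (_ : TopologicalSpace X) (φ : Flow ℝ X), CompactSpace X ∧ MetrizableSpace X ∧
      (∀ x, ∃ t, φ t x ≠ x) ∧ ∃ w w' : X, w ≠ w' ∧
        ∀ (Y : Type u) [MetricSpace Y] [CompactSpace Y] (ψ : Flow ℝ Y) (π : X → Y),
          Continuous π → Function.Surjective π → (∀ t x, π (φ t x) = ψ t (π x)) →
          π w ≠ π w' → coverEntropy (ψ 1) univ = ⊤ :=
  ⟨Su, inferInstance, flow, inferInstance, inferInstance, fixed_point_free, w0, w1, w_ne,
    fun _ _ _ ψ π hπ _ heq hne => factor_entropy ψ π hπ heq hne⟩

end Pool.Agent.Results.MP_54b048_an.InfiniteEntropyFactors
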